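import Pool.Agent.Helper21_EFA.KLS
import Pool.Agent.Helper2_EFA.FIN
import Pool.Agent.Helper74_EFA.REC
import Pool.Agent.Helper5_EFA.UPP
import Pool.Agent.Helper59_EFA.SPR
import Pool.Agent.Helper23_EFA.COD
import Pool.Agent.Helper36_EFA.RowCon
import Pool.Agent.Helper19_EFA.CMP

set_option autoImplicit false

/-!
# Effective automorphisms of the r.e. degrees are trivial

PROOF.  `F ∅` is computable.  (1) `A ≤_T F(A)`: if `A` is not computable then `F(A) ≠ F(∅)`, fix `y` in the
difference; for `Y = A × A` and `f_m(x) = (x, m)` the set `f_m⁻¹(Y)` is `A` if `m ∈ A` and empty otherwise, so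
`F(Y)`, which is computable from `F(A)`, computes `A`.  (2) (Kreisel, Lacombe, Shoenfield; recursion theorem) for finite
sets `D` there is a computable modulus `N(D, y)` such that `F(D')(y) = F(D)(y)` for all finite `D'` which agree with
`D` below `N(D, y)`.  (3) `Y = r(A) ≡_T A` for a computable sequence `r`, sparse with respect to `N`.  (4) If
`F(Y)(y) = F(Y ∩ [0, r(y)])(y)` for all `y` then `F(Y) ≤_T Y`.  Otherwise, for a bad `y` and an r.e. set `H`, let `f_m`
be the identity up to the stage at which `m` enters `H` and map into the complement of `Y` afterwards: `F(f_m⁻¹(Y))(y)` tells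
if `m ∈ H`, so every r.e. `H` is computable from `F(Y)`; for `H = F(F(Y))` we get `F(Y) ≤_T Y`.
-/

open Classical

namespace Pool.Agent.Helper21_EFA.EffAut

/-- Let `F` map r.e. sets to r.e. sets, let `A ≤_T B` iff `F A ≤_T F B` for all r.e. `A`, `B`, let some `F A`
be computable, and let `F (f⁻¹ Y)` be computable from `F Y`, uniformly in an index `c` of the one-one computable
function `f`, for every r.e. `Y`.  Then `F A ≡_T A` for every r.e. `A`. -/
theorem effectiveAutomorphisms :
    ∀ χ : (ℕ → Prop) → (ℕ →. ℕ),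
      (∀ (A : ℕ → Prop) (n : ℕ), χ A n = Part.some (if A n then (1 : ℕ) else 0)) →
      ∀ F : (ℕ → Prop) → (ℕ → Prop),
        (∀ A : ℕ → Prop, REPred A → REPred (F A)) →
        (∀ A B : ℕ → Prop, REPred A → REPred B →
          (TuringReducible (χ A) (χ B) ↔ TuringReducible (χ (F A)) (χ (F B)))) →
        (∃ A : ℕ → Prop, REPred A ∧ ComputablePred (F A)) →
        (∀ Y : ℕ → Prop, REPred Y → ∃ ψ : ℕ →. ℕ, TuringReducible ψ (χ (F Y)) ∧
          ∀ (c : Nat.Partrec.Code) (f : ℕ → ℕ), Function.Injective f →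
            (∀ x, c.eval x = Part.some (f x)) →
            ∀ y, ψ (Nat.pair (Encodable.encode c) y) = χ (F fun x => Y (f x)) y) →
        ∀ A : ℕ → Prop, REPred A →
          TuringReducible (χ (F A)) (χ A) ∧ TuringReducible (χ A) (χ (F A)) := by
  intro χ hχ F h1 h2 h3 h4 A hA
  have hch : ∀ A : ℕ → Prop, χ A = Helper25TD.chi (EFA.bo A) := by
    intro A
    funext n
    rw [hχ]
    unfold Helper25TD.chi EFA.bo
    by_cases h : A n <;> simp [h]
  have hE : EFA.Emb F := by
    refine ⟨h1, ?_, ?_⟩
    · intro A B hA hB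
      have := h2 A B hA hB
      rw [hch, hch, hch, hch] at this
      exact this
    · obtain ⟨A, hA, hc⟩ := h3
      refine ⟨A, hA, ?_⟩
      have := hc.decide (p := F A)
      exact this
  have hF : EFA.Eff F := by
    intro Y hY
    obtain ⟨ψ, hψ, h5⟩ := h4 Y hY
    refine ⟨ψ, ?_, ?_⟩
    · rw [hch] at hψ
      exact RecursiveIn.iff_nat.1 hψ
    · intro c f hf hc y
      rw [h5 c f hf hc y, hch]
      rfl
  have hR := EFA.H74.recThm
  have hfin := EFA.H2.fin hR (EFA.H5.upp hR) EFA.H21.kls EFA.H59.spr EFA.H23.cod EFA.H36.con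
    EFA.H19.cmp
  have h6 := hfin F hE hF A hA
  rw [hch, hch]
  exact h6

end Pool.Agent.Helper21_EFA.EffAut
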