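import Pool.Agent.EFA.Stmts

/-!
# Squad EFA, row KLS: modulus of continuity at the finite sets
-/

set_option autoImplicit false

open Nat.Partrec (Code)
open Nat.Partrec.Code
open Pool.Agent.Helper25TD

namespace Pool.Agent.EFA.H21

theorem pow_prim : Primrec₂ (fun a b : ℕ => a ^ b) := Primrec₂.unpaired'.1 Nat.Primrec.pow

/-- the bit `x` of `j` -/
def mm (j x : ℕ) : ℕ := j / 2 ^ x % 2

theorem mm_eq (j x : ℕ) : mm j x = (Nat.testBit j x).toNat := by
  unfold mm
  rw [Nat.testBit_eq_decide_div_mod_eq]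
  rcases Nat.mod_two_eq_zero_or_one (j / 2 ^ x) with h | h <;> simp [h]

theorem mm_prim : Primrec₂ mm :=
  Primrec.nat_mod.comp (Primrec.nat_div.comp Primrec.fst
    (pow_prim.comp (Primrec.const 2) Primrec.snd)) (Primrec.const 2)

/-- the reduction of the set with the code `j` to the even numbers -/
def uu (j x : ℕ) : ℕ := 2 * x + 1 - mm j x

theorem uu_prim : Primrec₂ uu :=
  Primrec.nat_sub.comp (Primrec.succ.comp (Primrec.nat_mul.comp (Primrec.const 2) Primrec.snd))
    mm_prim

theorem mm_le (j x : ℕ) : mm j x ≤ 1 := by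
  unfold mm
  omega

theorem uu_inj (j : ℕ) : Function.Injective (uu j) := by
  intro a b h
  unfold uu at h
  have h1 := mm_le j a
  have h2 := mm_le j b
  omega

theorem uu_even (j x : ℕ) : uu j x % 2 = 0 ↔ Nat.testBit j x = true := by
  have h1 := mm_le j x
  have h2 := mm_eq j x
  unfold uu
  cases h : Nat.testBit j x
  · rw [h] at h2
    simp only [Bool.toNat_false] at h2
    simp only [Bool.false_eq_true, iff_false]
    omega
  · rw [h] at h2
    simp only [Bool.toNat_true] at h2
    simp only [iff_true]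
    omega

theorem bits_mod {j j' s : ℕ} :
    j' % 2 ^ s = j % 2 ^ s ↔ ∀ x < s, Nat.testBit j' x = Nat.testBit j x := by
  constructor
  · intro h x hx
    have h1 := congrArg (fun n => Nat.testBit n x) h
    simpa [Nat.testBit_mod_two_pow, hx] using h1
  · intro h
    apply Nat.eq_of_testBit_eq
    intro x
    rw [Nat.testBit_mod_two_pow, Nat.testBit_mod_two_pow]
    by_cases hx : x < s
    · rw [h x hx]
    · simp [hx]

/-- the bounded computation -/
def Ep (Q c : Code) (p s : ℕ) : Option ℕ :=
  evaln s Q (Nat.pair (Encodable.encode (curry c p)) p.unpair.2)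

theorem Ep_prim (Q : Code) : Primrec fun a : (Code × ℕ) × ℕ => Ep Q a.1.1 a.1.2 a.2 := by
  unfold Ep
  exact primrec_evaln.comp ((Primrec.snd.pair (Primrec.const Q)).pair
    (Primrec₂.natPair.comp (Primrec.encode.comp (primrec₂_curry.comp
      (Primrec.fst.comp Primrec.fst) (Primrec.snd.comp Primrec.fst)))
      (Primrec.snd.comp (Primrec.unpair.comp (Primrec.snd.comp Primrec.fst)))))

/-- the condition of the search -/
def PP (Q : Code) (V : ℕ → ℕ → ℕ) (c : Code) (p w : ℕ) : Bool :=
  ((Ep Q c p w.unpair.1).isSome && !(Ep Q c p (w.unpair.1 - 1)).isSome) &&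
    (decide (w.unpair.2 % 2 ^ w.unpair.1 = p.unpair.1 % 2 ^ w.unpair.1) &&
      !decide (Ep Q c p w.unpair.1 = some (V w.unpair.2 p.unpair.2)))

theorem PP_comp (Q : Code) {V : ℕ → ℕ → ℕ} (hV : Computable₂ V) :
    Computable fun a : (Code × ℕ) × ℕ => PP Q V a.1.1 a.1.2 a.2 := by
  have hp : Primrec fun a : (Code × ℕ) × ℕ => a.1.2 := Primrec.snd.comp Primrec.fst
  have hs : Primrec fun a : (Code × ℕ) × ℕ => a.2.unpair.1 :=
    Primrec.fst.comp (Primrec.unpair.comp Primrec.snd)
  have hj' : Primrec fun a : (Code × ℕ) × ℕ => a.2.unpair.2 :=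
    Primrec.snd.comp (Primrec.unpair.comp Primrec.snd)
  have hj : Primrec fun a : (Code × ℕ) × ℕ => a.1.2.unpair.1 :=
    Primrec.fst.comp (Primrec.unpair.comp hp)
  have hy : Primrec fun a : (Code × ℕ) × ℕ => a.1.2.unpair.2 :=
    Primrec.snd.comp (Primrec.unpair.comp hp)
  have h2s : Primrec fun a : (Code × ℕ) × ℕ => 2 ^ a.2.unpair.1 :=
    pow_prim.comp (Primrec.const 2) hs
  have hE1 : Primrec fun a : (Code × ℕ) × ℕ => Ep Q a.1.1 a.1.2 a.2.unpair.1 :=
    (Ep_prim Q).comp (Primrec.fst.pair hs)
  have hE2 : Primrec fun a : (Code × ℕ) × ℕ => Ep Q a.1.1 a.1.2 (a.2.unpair.1 - 1) :=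
    (Ep_prim Q).comp (Primrec.fst.pair (Primrec.nat_sub.comp hs (Primrec.const 1)))
  have k1 : Primrec fun a : (Code × ℕ) × ℕ =>
      ((Ep Q a.1.1 a.1.2 a.2.unpair.1).isSome && !(Ep Q a.1.1 a.1.2 (a.2.unpair.1 - 1)).isSome) :=
    Primrec.and.comp (Primrec.option_isSome.comp hE1)
      (Primrec.not.comp (Primrec.option_isSome.comp hE2))
  have k2 : Primrec fun a : (Code × ℕ) × ℕ =>
      decide (a.2.unpair.2 % 2 ^ a.2.unpair.1 = a.1.2.unpair.1 % 2 ^ a.2.unpair.1) :=
    PrimrecPred.decide (Primrec.eq.comp (Primrec.nat_mod.comp hj' h2s) (Primrec.nat_mod.comp hj h2s))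
  have hVc : Computable fun a : (Code × ℕ) × ℕ => some (V a.2.unpair.2 a.1.2.unpair.2) :=
    Computable.option_some.comp (hV.comp hj'.to_comp hy.to_comp)
  have heq : Computable₂ fun a b : Option ℕ => decide (a = b) :=
    (PrimrecRel.decide Primrec.eq).to_comp
  have k3 : Computable fun a : (Code × ℕ) × ℕ =>
      !decide (Ep Q a.1.1 a.1.2 a.2.unpair.1 = some (V a.2.unpair.2 a.1.2.unpair.2)) :=
    Primrec.not.to_comp.comp (heq.comp hE1.to_comp hVc)
  exact Primrec.and.to_comp.comp k1.to_comp (Primrec.and.to_comp.comp k2.to_comp k3)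

/-- the body of the recursion theorem -/
def Ph (Q : Code) (V : ℕ → ℕ → ℕ) (c : Code) (z : ℕ) : Part ℕ :=
  Option.casesOn (Ep Q c z.unpair.1 z.unpair.2)
    (Part.some (uu z.unpair.1.unpair.1 z.unpair.2))
    (fun _ => (Nat.rfind fun w => Part.some (PP Q V c z.unpair.1 w)).map
      fun w => uu w.unpair.2 z.unpair.2)

section

attribute [local irreducible] Ep uu PP

theorem z1_prim : Primrec fun a : Code × ℕ => a.2.unpair.1 :=
  Primrec.fst.comp (Primrec.unpair.comp Primrec.snd)

theorem z2_prim : Primrec fun a : Code × ℕ => a.2.unpair.2 :=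
  Primrec.snd.comp (Primrec.unpair.comp Primrec.snd)

theorem a1_comp (Q : Code) : Computable fun a : Code × ℕ => Ep Q a.1 a.2.unpair.1 a.2.unpair.2 :=
  ((Ep_prim Q).comp ((Primrec.fst.pair z1_prim).pair z2_prim)).to_comp

theorem a2_comp : Computable fun a : Code × ℕ => uu a.2.unpair.1.unpair.1 a.2.unpair.2 :=
  (uu_prim.comp (Primrec.fst.comp (Primrec.unpair.comp z1_prim)) z2_prim).to_comp

theorem a3_comp : Computable fun b : (Code × ℕ) × ℕ => ((b.1.1, b.1.2.unpair.1), b.2) :=
  (((Primrec.fst.comp Primrec.fst).pair (z1_prim.comp Primrec.fst)).pair Primrec.snd).to_comp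

theorem a4_comp (Q : Code) {V : ℕ → ℕ → ℕ} (hV : Computable₂ V) :
    Computable fun b : (Code × ℕ) × ℕ => PP Q V b.1.1 b.1.2.unpair.1 b.2 :=
  (PP_comp Q hV).comp a3_comp

theorem a5_part (Q : Code) {V : ℕ → ℕ → ℕ} (hV : Computable₂ V) : Partrec fun a : Code × ℕ =>
    Nat.rfind fun w => Part.some (PP Q V a.1 a.2.unpair.1 w) := by
  have h : Partrec₂ fun (a : Code × ℕ) (w : ℕ) =>
      (Part.some (PP Q V a.1 a.2.unpair.1 w) : Part Bool) := (a4_comp Q hV).partrec
  exact Partrec.rfind h

theorem a6_comp : Computable₂ fun (a : Code × ℕ) (w : ℕ) => uu w.unpair.2 a.2.unpair.2 :=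
  (uu_prim.comp (Primrec.snd.comp (Primrec.unpair.comp Primrec.snd))
      (z2_prim.comp Primrec.fst)).to_comp

theorem a7_part (Q : Code) {V : ℕ → ℕ → ℕ} (hV : Computable₂ V) : Partrec fun a : Code × ℕ =>
    (Nat.rfind fun w => Part.some (PP Q V a.1 a.2.unpair.1 w)).map
      fun w => uu w.unpair.2 a.2.unpair.2 :=
  Partrec.map (a5_part Q hV) a6_comp

theorem Ph_part (Q : Code) {V : ℕ → ℕ → ℕ} (hV : Computable₂ V) : Partrec₂ (Ph Q V) := by
  have hg : Partrec₂ fun (a : Code × ℕ) (_ : ℕ) =>
      (Nat.rfind fun w => Part.some (PP Q V a.1 a.2.unpair.1 w)).map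
        fun w => uu w.unpair.2 a.2.unpair.2 := (a7_part Q hV).comp Computable.fst
  have := Partrec.optionCasesOn_right (a1_comp Q) a2_comp hg
  exact this

end

theorem kls : KlsStmt := by
  intro G q hq hG
  obtain ⟨Q, hQ⟩ := Code.exists_code.1 hq
  -- the value on a set with the code `j`
  have hval : ∀ (e : Code) (j : ℕ), (∀ x, e.eval x = Part.some (uu j x)) → ∀ y,
      q (Nat.pair (Encodable.encode e) y) = Part.some (G (fs j) y).toNat := by
    intro e j he y
    rw [hG e (uu j) (uu_inj j) he y]
    have : (fun x => uu j x % 2 = 0) = fs j := by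
      funext x
      exact propext (uu_even j x)
    rw [this]
  -- the codes of the finite sets
  obtain ⟨d, hd⟩ := Code.exists_code.1 (Partrec₂.unpaired'.2 (uu_prim.to_comp.partrec₂))
  have hdj : ∀ j x, (curry d j).eval x = Part.some (uu j x) := by
    intro j x
    rw [eval_curry, hd]
    simp [Nat.unpaired]
  let V : ℕ → ℕ → ℕ := fun j y => (G (fs j) y).toNat
  have hV : Computable₂ V := by
    have h1 : Partrec fun a : ℕ × ℕ => q (Nat.pair (Encodable.encode (curry d a.1)) a.2) := by
      refine (Partrec.nat_iff.2 hq).comp ?_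
      exact (Primrec₂.natPair.comp (Primrec.encode.comp (primrec₂_curry.comp
        (Primrec.const d) Primrec.fst)) Primrec.snd).to_comp
    refine h1.of_eq_tot fun a => ?_
    rw [hval (curry d a.1) a.1 (hdj a.1) a.2]
    exact Part.mem_some _
  obtain ⟨c, hc⟩ := Code.fixed_point₂ (Ph_part Q hV)
  have hce : ∀ p x, (curry c p).eval x = Ph Q V c (Nat.pair p x) := by
    intro p x
    rw [eval_curry, hc]
  -- the computation converges
  have hconv : ∀ p, ∃ s, (Ep Q c p s).isSome := by
    intro p
    by_contra hno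
    have hno' : ∀ s, Ep Q c p s = none := by
      intro s
      have : ¬ (Ep Q c p s).isSome := fun h => hno ⟨s, h⟩
      simpa using this
    have h1 : ∀ x, (curry c p).eval x = Part.some (uu p.unpair.1 x) := by
      intro x
      rw [hce]
      unfold Ph
      simp only [Nat.unpair_pair, hno']
    have h2 := hval (curry c p) p.unpair.1 h1 p.unpair.2
    rw [← hQ] at h2
    have h3 : (G (fs p.unpair.1) p.unpair.2).toNat ∈
        Q.eval (Nat.pair (Encodable.encode (curry c p)) p.unpair.2) := by
      rw [h2]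
      exact Part.mem_some _
    obtain ⟨k, hk⟩ := evaln_complete.1 h3
    have h4 := hno' k
    unfold Ep at h4
    rw [h4] at hk
    simp at hk
  let N : ℕ → ℕ → ℕ := fun j y => Nat.find (hconv (Nat.pair j y))
  have hN : Computable₂ N := by
    have h1 : Computable fun p : ℕ => Nat.find (hconv p) := by
      refine Computable.find (P := fun p s => (Ep Q c p s).isSome = true) ?_ hconv
      have h2 : Primrec fun a : ℕ × ℕ => (Ep Q c a.1 a.2).isSome :=
        Primrec.option_isSome.comp ((Ep_prim Q).comp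
          (((Primrec.const c).pair Primrec.fst).pair Primrec.snd))
      exact ComputablePred.computable_iff.2 ⟨_, h2.to_comp, rfl⟩
    exact h1.comp (Primrec₂.natPair.comp Primrec.fst Primrec.snd).to_comp
  refine ⟨V, N, hV, hN, fun j y => rfl, ?_⟩
  -- all finite sets which agree with `j` below the modulus have the same value
  have key : ∀ j y j', (∀ x < N j y, Nat.testBit j' x = Nat.testBit j x) →
      Ep Q c (Nat.pair j y) (N j y) = some (V j' y) := by
    intro j y j' hj'
    have hs : (Ep Q c (Nat.pair j y) (N j y)).isSome := Nat.find_spec (hconv (Nat.pair j y))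
    have hmin : ∀ m < N j y, ¬ (Ep Q c (Nat.pair j y) m).isSome := fun m hm =>
      Nat.find_min (hconv (Nat.pair j y)) hm
    have hpos : 0 < N j y := by
      rcases Nat.eq_zero_or_pos (N j y) with h0 | h0
      · rw [h0] at hs
        unfold Ep at hs
        simp [evaln] at hs
      · exact h0
    by_contra hne
    have hP : PP Q V c (Nat.pair j y) (Nat.pair (N j y) j') = true := by
      unfold PP
      simp only [Nat.unpair_pair, Bool.and_eq_true, Bool.not_eq_true', decide_eq_true_eq,
        decide_eq_false_iff_not]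
      refine ⟨⟨hs, ?_⟩, bits_mod.2 hj', hne⟩
      exact Bool.eq_false_iff.2 (hmin (N j y - 1) (by omega))
    obtain ⟨w, hw, -⟩ := Nat.rfind_min' (p := fun w => PP Q V c (Nat.pair j y) w) hP
    have hPw : PP Q V c (Nat.pair j y) w = true := by
      have := Nat.rfind_spec hw
      simpa using this
    unfold PP at hPw
    simp only [Nat.unpair_pair, Bool.and_eq_true, Bool.not_eq_true', decide_eq_true_eq,
      decide_eq_false_iff_not] at hPw
    obtain ⟨⟨hw1, hw2⟩, hw3, hw4⟩ := hPw
    -- the stage found is the modulus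
    have mono : ∀ {a b : ℕ}, a ≤ b → (Ep Q c (Nat.pair j y) a).isSome →
        (Ep Q c (Nat.pair j y) b).isSome := by
      intro a b hab h
      obtain ⟨v, hv⟩ := Option.isSome_iff_exists.1 h
      have := evaln_mono hab (Option.mem_def.2 hv)
      exact Option.isSome_iff_exists.2 ⟨v, this⟩
    have hsw : w.unpair.1 = N j y := by
      have h1 : N j y ≤ w.unpair.1 := Nat.find_min' _ hw1
      by_contra hne2
      have h2 : N j y ≤ w.unpair.1 - 1 := by omega
      have h3 := mono h2 hs
      rw [hw2] at h3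
      exact Bool.false_ne_true h3
    rw [hsw] at hw3 hw4
    have hbits := bits_mod.1 hw3
    have h1 : ∀ x, (curry c (Nat.pair j y)).eval x = Part.some (uu w.unpair.2 x) := by
      intro x
      rw [hce]
      unfold Ph
      simp only [Nat.unpair_pair]
      rcases lt_or_ge x (N j y) with hx | hx
      · have h2 : Ep Q c (Nat.pair j y) x = none := by
          have := hmin x hx
          simpa using this
        rw [h2]
        simp only
        unfold uu
        rw [mm_eq, mm_eq, hbits x hx]
      · obtain ⟨v, hv⟩ := Option.isSome_iff_exists.1 (mono hx hs)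
        rw [hv]
        simp only
        have h3 : (Nat.rfind fun w => Part.some (PP Q V c (Nat.pair j y) w)) = Part.some w :=
          Part.eq_some_iff.2 hw
        rw [h3, Part.map_some]
    have h2 := hval _ _ h1 y
    obtain ⟨v, hv⟩ := Option.isSome_iff_exists.1 hs
    have h3 : v ∈ Q.eval (Nat.pair (Encodable.encode (curry c (Nat.pair j y))) y) := by
      have h4 : Ep Q c (Nat.pair j y) (N j y) = some v := hv
      unfold Ep at h4
      simp only [Nat.unpair_pair] at h4
      exact evaln_sound (Option.mem_def.2 h4)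
    rw [hQ, h2] at h3
    have h5 : v = V w.unpair.2 y := Part.mem_some_iff.1 h3
    exact hw4 (by rw [hv, h5])
  intro j y j' hj'
  have h1 := key j y j' hj'
  have h2 := key j y j (fun _ _ => rfl)
  rw [h1] at h2
  have h3 : V j' y = V j y := Option.some_injective _ h2
  have h4 : (G (fs j') y).toNat = (G (fs j) y).toNat := h3
  cases h5 : G (fs j') y <;> cases h6 : G (fs j) y <;> simp [h5, h6] at h4 ⊢

end Pool.Agent.EFA.H21
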